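import Mathlib

/-!
# Group-based flows on the claw tree `K_{1,3}` and the toric ideal `I(G, K_{1,3})`
-/

namespace Pool.Agent.H53.Phylo

open MvPolynomial

/-- Group-based flows on the claw tree `K_{1,3}` (three edges `0, 1, 2`, all oriented towards
the node): triples `(f 0, f 1, f 2)` of elements of `G` with sum `0`. -/
abbrev Flow (G : Type*) [AddCommGroup G] : Type _ := {f : Fin 3 → G // ∑ e, f e = 0}

/-- The monomial map `x_f ↦ t^{P_f}`, where `P_f = ∑_e b_{(e, f e)}`, i.e.
`x_f ↦ ∏_e t_{(e, f e)}`. -/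
noncomputable def param (G : Type*) [AddCommGroup G] :
    MvPolynomial (Flow G) ℂ →ₐ[ℂ] MvPolynomial (Fin 3 × G) ℂ :=
  aeval fun f => ∏ e : Fin 3, X (e, f.1 e)

/-- The toric ideal `I(G, K_{1,3})` of the point set `{P_f : f a flow}`. -/
noncomputable def toricIdeal (G : Type*) [AddCommGroup G] : Ideal (MvPolynomial (Flow G) ℂ) :=
  RingHom.ker (param G)

end Pool.Agent.H53.Phylo
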