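import Pool.Agent.H53.Phylo.Defs

namespace Pool.Agent.H53.Phylo

open MvPolynomial

section general
variable {G : Type*} [AddCommGroup G]

/-- exponent of `t^{P_f}` -/
noncomputable def E (f : Flow G) : Fin 3 × G →₀ ℕ := ∑ e : Fin 3, Finsupp.single (e, f.1 e) 1

/-- exponent map on monomials -/
noncomputable def P : (Flow G →₀ ℕ) →ₗ[ℕ] (Fin 3 × G →₀ ℕ) := Finsupp.linearCombination ℕ E

lemma prod_X (f : Flow G) :
    (∏ e : Fin 3, (X (e, f.1 e) : MvPolynomial (Fin 3 × G) ℂ)) = monomial (E f) 1 := by
  unfold E
  rw [MvPolynomial.monomial_sum_one]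
  rfl

lemma param_monomial (w : Flow G →₀ ℕ) (c : ℂ) :
    param G (monomial w c) = monomial (P w) c := by
  unfold param
  rw [aeval_monomial]
  simp only [prod_X]
  have : (w.prod fun i k => (monomial (E i) (1:ℂ)) ^ k) = monomial (P w) 1 := by
    unfold P
    rw [Finsupp.linearCombination_apply, Finsupp.sum, Finsupp.prod]
    rw [MvPolynomial.monomial_sum_one]
    refine Finset.prod_congr rfl fun i _ => ?_
    rw [monomial_pow]; simp
  rw [this]
  simp [MvPolynomial.algebraMap_eq, C_mul_monomial]

lemma coeff_param [DecidableEq G] (p : MvPolynomial (Flow G) ℂ)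
    (m : Fin 3 × G →₀ ℕ) :
    coeff m (param G p) = ∑ w ∈ p.support, if P w = m then coeff w p else 0 := by
  conv_lhs => rw [p.as_sum]
  rw [map_sum, coeff_sum]
  refine Finset.sum_congr rfl fun w _ => ?_
  rw [param_monomial, coeff_monomial]

/-- a monomial whose fibre is a singleton has coefficient zero in every element of the ideal -/
lemma coeff_eq_zero_of_fibre {p : MvPolynomial (Flow G) ℂ} (hp : p ∈ toricIdeal G)
    {w : Flow G →₀ ℕ} (hw : ∀ w', P w' = P w → w' = w) : coeff w p = 0 := by
  classical
  have h : param G p = 0 := hp
  have h1 := coeff_param p (P w)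
  rw [h, coeff_zero] at h1
  by_contra hne
  have hmem : w ∈ p.support := by rwa [mem_support_iff]
  rw [Finset.sum_eq_single w] at h1
  · simp at h1; exact hne h1.symm
  · intro b _ hb
    rw [if_neg]
    intro hh; exact hb (hw b hh)
  · intro h2; exact absurd hmem h2

/-- If the fibre of `u` is `{u, v}` with `u, v` of disjoint support, then every
generating set contains an element of degree at least `deg u`. -/
lemma degree_bound (u v : Flow G →₀ ℕ) (huv : P u = P v) (hne : u ≠ v)
    (hfib : ∀ w, P w = P u → w = u ∨ w = v) (hdisj : ∀ f, u f = 0 ∨ v f = 0)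
    (S : Set (MvPolynomial (Flow G) ℂ))
    (hgen : Ideal.span S = toricIdeal G) :
    ∃ p ∈ S, (u.sum fun _ e => e) ≤ p.totalDegree := by
  classical
  by_contra hcon
  push Not at hcon
  have hSI : ∀ p ∈ S, p ∈ toricIdeal G := fun p hp => hgen ▸ Ideal.subset_span hp
  have hkey : ∀ q ∈ Ideal.span S, ∀ h, coeff u (h * q) = 0 := by
    intro q hq
    induction hq using Submodule.span_induction with
    | mem x hx =>
      intro h
      rw [coeff_mul]
      refine Finset.sum_eq_zero fun mw hmw => ?_
      obtain ⟨m, w⟩ := mw
      rw [Finset.HasAntidiagonal.mem_antidiagonal] at hmw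
      simp only at hmw ⊢
      have : coeff w x = 0 := by
        by_cases hm : m = 0
        · have hwu : w = u := by rw [← hmw, hm, zero_add]
          rw [hwu]
          by_contra hc
          have h1 : u ∈ x.support := by rwa [mem_support_iff]
          have h2 := le_totalDegree h1
          have h3 := hcon x hx
          omega
        · refine coeff_eq_zero_of_fibre (hSI x hx) fun w' hw' => ?_
          have h1 : P (m + w') = P u := by rw [map_add, hw', ← map_add, hmw]
          rcases hfib _ h1 with h2 | h2
          · rw [← hmw] at h2
            exact add_left_cancel h2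
          · exfalso
            apply hm
            ext f
            have h3 : m f + w' f = v f := by rw [← h2]; rfl
            have h4 : m f + w f = u f := by rw [← hmw]; rfl
            have h5 := hdisj f
            simp only [Finsupp.coe_zero, Pi.zero_apply]
            omega
      rw [this, mul_zero]
    | zero => simp
    | add x y _ _ hx hy =>
      intro h
      rw [mul_add, coeff_add, hx, hy, add_zero]
    | smul a x hx hh =>
      intro h
      rw [smul_eq_mul, ← mul_assoc]
      exact hh _
  have hq : (monomial u (1:ℂ) - monomial v 1) ∈ Ideal.span S := by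
    rw [hgen]
    change param G _ = 0
    rw [map_sub, param_monomial, param_monomial, huv, sub_self]
  have h1 := hkey _ hq 1
  rw [one_mul, coeff_sub, coeff_monomial, coeff_monomial, if_pos rfl, if_neg hne.symm] at h1
  norm_num at h1

end general

end Pool.Agent.H53.Phylo
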