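import Pool.Agent.H53.Phylo.Main

namespace Pool.Agent.H53.Phylo

open MvPolynomial

/-- flow with first two entries `a, b` -/
def mk (a b : ZMod 12) : Flow (ZMod 12) :=
  ⟨![a, b, -a - b], by simp [Fin.sum_univ_three]⟩

def cA : Fin 16 → ZMod 12 := ![1,1,2,2,2,2,5,5,5,9,9,9,10,10,10,10]
def cB : Fin 16 → ZMod 12 := ![7,11,1,5,9,11,7,8,11,7,8,11,1,5,7,9]
def cU : Fin 16 → ℕ := ![2,0,0,0,0,3,2,0,1,0,3,0,1,1,0,1]
def cV : Fin 16 → ℕ := ![0,2,1,1,1,0,0,3,0,1,0,2,0,0,3,0]
/-- the sixteen flows of the core -/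
def c (j : Fin 16) : Flow (ZMod 12) := mk (cA j) (cB j)

lemma c_inj : Function.Injective c := by
  unfold Function.Injective; decide +kernel

noncomputable def toW (x : Fin 16 → ℕ) : Flow (ZMod 12) →₀ ℕ := ∑ j, Finsupp.single (c j) (x j)

lemma toW_c (x : Fin 16 → ℕ) (j : Fin 16) : toW x (c j) = x j := by
  unfold toW
  rw [Finsupp.finsetSum_apply, Finset.sum_eq_single j]
  · simp
  · intro i _ hi
    rw [Finsupp.single_apply, if_neg]
    exact fun h => hi (c_inj h)
  · simp

lemma toW_not (x : Fin 16 → ℕ) (f : Flow (ZMod 12)) (hf : ∀ j, c j ≠ f) : toW x f = 0 := by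
  unfold toW
  rw [Finsupp.finsetSum_apply]
  refine Finset.sum_eq_zero fun i _ => ?_
  rw [Finsupp.single_apply, if_neg (hf i)]

lemma P_apply (w : Flow (ZMod 12) →₀ ℕ) (e : Fin 3) (g : ZMod 12) :
    P w (e, g) = ∑ f : Flow (ZMod 12), if f.1 e = g then w f else 0 := by
  unfold P E
  rw [Finsupp.linearCombination_apply, Finsupp.sum_fintype _ _ (by simp), Finsupp.finsetSum_apply]
  refine Finset.sum_congr rfl fun f _ => ?_
  rw [Finsupp.smul_apply, Finsupp.finsetSum_apply, Finset.sum_eq_single e]
  · rw [Finsupp.single_apply]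
    by_cases h : f.1 e = g
    · simp [h]
    · simp [h]
  · intro e' _ he'
    rw [Finsupp.single_apply, if_neg]
    intro h; exact he' (Prod.ext_iff.1 h).1
  · simp

/-- marginals of a vector supported on the core -/
lemma P_core (w : Flow (ZMod 12) →₀ ℕ) (hw : ∀ f, (∀ j, c j ≠ f) → w f = 0)
    (e : Fin 3) (g : ZMod 12) :
    P w (e, g) = ∑ j : Fin 16, if (c j).1 e = g then w (c j) else 0 := by
  classical
  rw [P_apply]
  have := Finset.sum_map (Finset.univ : Finset (Fin 16)) ⟨c, c_inj⟩
    (fun f => if f.1 e = g then w f else 0)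
  simp only [Function.Embedding.coeFn_mk] at this
  rw [← this]
  symm
  refine Finset.sum_subset (Finset.subset_univ _) fun f _ hf => ?_
  rw [hw f, ite_self]
  intro j hj
  apply hf
  rw [Finset.mem_map]
  exact ⟨j, Finset.mem_univ _, hj⟩

/-- computable marginal -/
def marg (x : Fin 16 → ℕ) (e : Fin 3) (g : ZMod 12) : ℕ :=
  ∑ j : Fin 16, if (c j).1 e = g then x j else 0

lemma P_toW (x : Fin 16 → ℕ) (e : Fin 3) (g : ZMod 12) : P (toW x) (e, g) = marg x e g := by
  rw [P_core _ (toW_not x)]
  unfold marg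
  refine Finset.sum_congr rfl fun j _ => ?_
  rw [toW_c]

lemma marg_eq : ∀ e g, marg cU e g = marg cV e g := by decide +kernel

lemma core_of_marg : ∀ f : Flow (ZMod 12), (∀ j, c j ≠ f) → ∃ e, marg cU e (f.1 e) = 0 := by
  decide +kernel

lemma P_eq : P (toW cU) = P (toW cV) := by
  ext ⟨e, g⟩
  rw [P_toW, P_toW, marg_eq]

lemma hred (x : Fin 16 → ℕ) (e : Fin 3) (g : ZMod 12) (s : Finset (Fin 16))
    (hs : ∀ j, (c j).1 e = g ↔ j ∈ s) : marg x e g = ∑ j ∈ s, x j := by
  unfold marg
  simp only [hs, Finset.sum_ite_mem, Finset.univ_inter]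

lemma solve (x : Fin 16 → ℕ) (h : ∀ e g, marg x e g = marg cU e g) : x = cU ∨ x = cV := by
  have e0_1 : x 0 + x 1 = 2 := by
    have := h 0 1
    rw [hred x 0 1 {0, 1} (by decide +kernel), hred cU 0 1 {0, 1} (by decide +kernel)] at this
    simpa [cU, add_assoc] using this
  have e0_2 : x 2 + x 3 + x 4 + x 5 = 3 := by
    have := h 0 2
    rw [hred x 0 2 {2, 3, 4, 5} (by decide +kernel), hred cU 0 2 {2, 3, 4, 5} (by decide +kernel)] at this
    simpa [cU, add_assoc] using this
  have e0_5 : x 6 + x 7 + x 8 = 3 := by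
    have := h 0 5
    rw [hred x 0 5 {6, 7, 8} (by decide +kernel), hred cU 0 5 {6, 7, 8} (by decide +kernel)] at this
    simpa [cU, add_assoc] using this
  have e0_9 : x 9 + x 10 + x 11 = 3 := by
    have := h 0 9
    rw [hred x 0 9 {9, 10, 11} (by decide +kernel), hred cU 0 9 {9, 10, 11} (by decide +kernel)] at this
    simpa [cU, add_assoc] using this
  have e0_10 : x 12 + x 13 + x 14 + x 15 = 3 := by
    have := h 0 10
    rw [hred x 0 10 {12, 13, 14, 15} (by decide +kernel), hred cU 0 10 {12, 13, 14, 15} (by decide +kernel)] at this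
    simpa [cU, add_assoc] using this
  have e1_1 : x 2 + x 12 = 1 := by
    have := h 1 1
    rw [hred x 1 1 {2, 12} (by decide +kernel), hred cU 1 1 {2, 12} (by decide +kernel)] at this
    simpa [cU, add_assoc] using this
  have e1_5 : x 3 + x 13 = 1 := by
    have := h 1 5
    rw [hred x 1 5 {3, 13} (by decide +kernel), hred cU 1 5 {3, 13} (by decide +kernel)] at this
    simpa [cU, add_assoc] using this
  have e1_7 : x 0 + x 6 + x 9 + x 14 = 4 := by
    have := h 1 7
    rw [hred x 1 7 {0, 6, 9, 14} (by decide +kernel), hred cU 1 7 {0, 6, 9, 14} (by decide +kernel)] at this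
    simpa [cU, add_assoc] using this
  have e1_8 : x 7 + x 10 = 3 := by
    have := h 1 8
    rw [hred x 1 8 {7, 10} (by decide +kernel), hred cU 1 8 {7, 10} (by decide +kernel)] at this
    simpa [cU, add_assoc] using this
  have e1_9 : x 4 + x 15 = 1 := by
    have := h 1 9
    rw [hred x 1 9 {4, 15} (by decide +kernel), hred cU 1 9 {4, 15} (by decide +kernel)] at this
    simpa [cU, add_assoc] using this
  have e1_11 : x 1 + x 5 + x 8 + x 11 = 4 := by
    have := h 1 11
    rw [hred x 1 11 {1, 5, 8, 11} (by decide +kernel), hred cU 1 11 {1, 5, 8, 11} (by decide +kernel)] at this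
    simpa [cU, add_assoc] using this
  have e2_0 : x 1 + x 6 = 2 := by
    have := h 2 0
    rw [hred x 2 0 {1, 6} (by decide +kernel), hred cU 2 0 {1, 6} (by decide +kernel)] at this
    simpa [cU, add_assoc] using this
  have e2_1 : x 4 + x 12 = 1 := by
    have := h 2 1
    rw [hred x 2 1 {4, 12} (by decide +kernel), hred cU 2 1 {4, 12} (by decide +kernel)] at this
    simpa [cU, add_assoc] using this
  have e2_4 : x 0 + x 11 = 2 := by
    have := h 2 4
    rw [hred x 2 4 {0, 11} (by decide +kernel), hred cU 2 4 {0, 11} (by decide +kernel)] at this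
    simpa [cU, add_assoc] using this
  have e2_5 : x 3 + x 15 = 1 := by
    have := h 2 5
    rw [hred x 2 5 {3, 15} (by decide +kernel), hred cU 2 5 {3, 15} (by decide +kernel)] at this
    simpa [cU, add_assoc] using this
  have e2_7 : x 10 + x 14 = 3 := by
    have := h 2 7
    rw [hred x 2 7 {10, 14} (by decide +kernel), hred cU 2 7 {10, 14} (by decide +kernel)] at this
    simpa [cU, add_assoc] using this
  have e2_8 : x 8 + x 9 = 1 := by
    have := h 2 8
    rw [hred x 2 8 {8, 9} (by decide +kernel), hred cU 2 8 {8, 9} (by decide +kernel)] at this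
    simpa [cU, add_assoc] using this
  have e2_9 : x 2 + x 13 = 1 := by
    have := h 2 9
    rw [hred x 2 9 {2, 13} (by decide +kernel), hred cU 2 9 {2, 13} (by decide +kernel)] at this
    simpa [cU, add_assoc] using this
  have e2_11 : x 5 + x 7 = 3 := by
    have := h 2 11
    rw [hred x 2 11 {5, 7} (by decide +kernel), hred cU 2 11 {5, 7} (by decide +kernel)] at this
    simpa [cU, add_assoc] using this
  have hcase : x 2 = 0 ∨ x 2 = 1 := by omega
  rcases hcase with hc | hc
  · left
    have h0 : x 0 = 2 := by omega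
    have h1 : x 1 = 0 := by omega
    have h2 : x 2 = 0 := by omega
    have h3 : x 3 = 0 := by omega
    have h4 : x 4 = 0 := by omega
    have h5 : x 5 = 3 := by omega
    have h6 : x 6 = 2 := by omega
    have h7 : x 7 = 0 := by omega
    have h8 : x 8 = 1 := by omega
    have h9 : x 9 = 0 := by omega
    have h10 : x 10 = 3 := by omega
    have h11 : x 11 = 0 := by omega
    have h12 : x 12 = 1 := by omega
    have h13 : x 13 = 1 := by omega
    have h14 : x 14 = 0 := by omega
    have h15 : x 15 = 1 := by omega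
    funext j
    fin_cases j <;> simp [cU] <;> assumption
  · right
    have h0 : x 0 = 0 := by omega
    have h1 : x 1 = 2 := by omega
    have h2 : x 2 = 1 := by omega
    have h3 : x 3 = 1 := by omega
    have h4 : x 4 = 1 := by omega
    have h5 : x 5 = 0 := by omega
    have h6 : x 6 = 0 := by omega
    have h7 : x 7 = 3 := by omega
    have h8 : x 8 = 0 := by omega
    have h9 : x 9 = 1 := by omega
    have h10 : x 10 = 0 := by omega
    have h11 : x 11 = 2 := by omega
    have h12 : x 12 = 0 := by omega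
    have h13 : x 13 = 0 := by omega
    have h14 : x 14 = 3 := by omega
    have h15 : x 15 = 0 := by omega
    funext j
    fin_cases j <;> simp [cV] <;> assumption

lemma fibre (w : Flow (ZMod 12) →₀ ℕ) (h : P w = P (toW cU)) : w = toW cU ∨ w = toW cV := by
  have hz : ∀ f, (∀ j, c j ≠ f) → w f = 0 := by
    intro f hf
    obtain ⟨e, he⟩ := core_of_marg f hf
    have h1 : P w (e, f.1 e) = 0 := by rw [h, P_toW, he]
    rw [P_apply, Finset.sum_eq_zero_iff] at h1
    simpa using h1 f (Finset.mem_univ _)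
  have hm : ∀ e g, marg (fun j => w (c j)) e g = marg cU e g := by
    intro e g
    rw [← P_toW cU, ← h, P_core w hz]
    rfl
  have key : ∀ x : Fin 16 → ℕ, (fun j => w (c j)) = x → w = toW x := by
    intro x hx
    ext f
    by_cases hf : ∃ j, c j = f
    · obtain ⟨j, rfl⟩ := hf
      rw [toW_c, ← hx]
    · push Not at hf
      rw [hz f hf, toW_not x f hf]
  rcases solve _ hm with h1 | h1
  · exact Or.inl (key _ h1)
  · exact Or.inr (key _ h1)

end Pool.Agent.H53.Phylo
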